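import Mathlib
import Pool.Agent.H.MP_7b7e09_gt.A

set_option autoImplicit false

namespace Pool.Agent.Results.MP_e258b5_gt.Kat

open Set Filter MeasureTheory Pool.Agent.H.MP_9c4169_gt Pool.Agent.H.MP_7b7e09_gt

/-- open gamma_p-covers -/
def Gp (Z : Type) [TopologicalSpace Z] (p : Ultrafilter ℕ) : Set (Set (Set Z)) :=
  {𝒰 | 𝒰 ∈ Cov (Op Z) ∧ ∃ u : ℕ → Set Z, range u = 𝒰 ∧ ∀ z, {n | z ∈ u n} ∈ p}

/-- `p` is Katetov-above every F-sigma ideal on the naturals -/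
def Kat (p : Ultrafilter ℕ) : Prop :=
  ∀ I : Set (ℕ → Bool), IsLowerSet I → SupClosed I → ⊤ ∉ I →
    (∀ a : ℕ → Bool, {n | a n = true}.Finite → a ∈ I) →
    (∃ C : ℕ → Set (ℕ → Bool), (∀ n, IsClosed (C n)) ∧ ⋃ n, C n = I) →
    ∃ f : ℕ → ℕ, ∀ a ∈ I, {n | a (f n) = true} ∉ p

theorem pos {Z : Type} [TopologicalSpace Z] [SecondCountableTopology Z] [CompactSpace Z]
    (p : Ultrafilter ℕ) (h : Kat p) : Cho (Om (Op Z)) (Gp Z p) := by
  classical
  intro 𝒰 hU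
  obtain ⟨u, u1, u2⟩ := omct hU
  obtain ⟨q, q1, q2⟩ := ult2 u (fun n h => hU.1.2.2 (h ▸ u1 n)) u2
  obtain ⟨f, hf⟩ := h {a | ∃ F : Set Z, F.Finite ∧ ∀ᶠ n in atTop, a n = true → ¬ F ⊆ u n}
    (fun a b hab ⟨F, h1, h2⟩ => ⟨F, h1, h2.mono fun n hn h3 => hn (hab n h3)⟩)
    (fun a ⟨F, h1, h2⟩ b ⟨G, h3, h4⟩ => ⟨_, h1.union h3, (h2.and h4).mono fun n hn h5 h6 =>
      (Bool.or_eq_true_iff.1 h5).elim (fun h => hn.1 h (subset_union_left.trans h6))
        fun h => hn.2 h (subset_union_right.trans h6)⟩)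
    (fun ⟨F, h1, h2⟩ => by
      obtain ⟨m, hm⟩ := eventually_atTop.1 h2
      obtain ⟨n, n1, n2⟩ := q.nonempty_of_mem (inter_mem (q1 F h1) (q2 m))
      exact hm n n2 rfl n1)
    (fun a ha => ⟨∅, finite_empty, (Nat.cofinite_eq_atTop ▸ ha.compl_mem_cofinite :
      _ ∈ atTop) |> fun h => mem_of_superset h fun n hn h' => (hn h').elim⟩)
    ⟨fun k => Prod.snd '' {z : (Fin k.unpair.1 → Z) × (ℕ → Bool) |
      ∀ n ≥ k.unpair.2, z.2 n = true → ¬ range z.1 ⊆ u n}, fun k => by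
        refine isClosedMap_snd_of_compactSpace _ ?_
        simp only [ofPred_forall]
        refine isClosed_iInter fun n => isClosed_iInter fun _ => ?_
        have h1 : IsOpen {z : (Fin k.unpair.1 → Z) × (ℕ → Bool) | z.2 n = true} :=
          (isOpen_discrete {true}).preimage
            ((continuous_apply (A := fun _ : ℕ => Bool) n).comp continuous_snd)
        have h2 := (isOpen_set_pi (s := fun _ : Fin k.unpair.1 => u n) finite_univ fun _ _ =>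
          hU.1.1 (u1 n)).preimage (continuous_fst (Y := ℕ → Bool))
        convert (h1.inter h2).isClosed_compl using 1
        ext z
        simp [range_subset_iff], by
      ext a
      simp only [mem_iUnion, mem_image, mem_ofPred_eq, eventually_atTop]
      refine ⟨fun ⟨k, z, h1, h2⟩ => ⟨_, finite_range z.1, _, h2 ▸ h1⟩, fun ⟨F, h1, m, h2⟩ => ?_⟩
      obtain ⟨k, x, -, rfl⟩ := h1.fin_param
      refine ⟨k.pair m, ?_⟩
      rw [Nat.unpair_pair]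
      exact ⟨(x, a), h2, rfl⟩⟩
  have h1 : ∀ z, {n | z ∈ u (f n)} ∈ p := fun z => by
    have := hf (fun n => decide (z ∉ u n)) ⟨{z}, finite_singleton z, by simp⟩
    exact mem_of_superset (Ultrafilter.compl_mem_iff_notMem.2 this) fun n hn => by simpa using hn
  have h2 : range (fun n => u (f n)) ⊆ 𝒰 := range_subset_iff.2 fun n => u1 _
  refine ⟨_, h2, ⟨h2.trans hU.1.1, eq_univ_of_forall fun z => ?_, fun h => hU.1.2.2 (h2 h)⟩,
    _, rfl, h1⟩
  obtain ⟨n, hn⟩ := p.nonempty_of_mem (h1 z)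
  exact ⟨_, ⟨n, rfl⟩, hn⟩

theorem neg : ¬ Cho (Om (Op (Icc (0 : ℝ) 1))) (Ga (Op (Icc (0 : ℝ) 1))) := fun h => by
  have h1 : ∀ W : Set ℝ, Subtype.val ⁻¹' W = (Set.univ : Set (Icc (0 : ℝ) 1)) → 1 ≤ volume W :=
    fun W hW => by
      have := measure_mono (μ := volume) (show Icc (0 : ℝ) 1 ⊆ W from fun x hx =>
        hW.ge (mem_univ ⟨x, hx⟩))
      simpa using this
  have h0 : (2⁻¹ : ENNReal) < 1 := by simp
  have h2 : ∀ (F : Set (Icc (0 : ℝ) 1)), F.Finite → ∃ U ∈ (fun W : Set ℝ => Subtype.val ⁻¹' W) ''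
      {W | IsOpen W ∧ volume W < 2⁻¹}, F ⊆ U := fun F hF => by
    obtain ⟨W, w1, w2, w3⟩ := (Subtype.val '' F).exists_isOpen_lt_of_lt (μ := volume) 2⁻¹
      (by rw [(hF.image _).measure_zero]; simp)
    exact ⟨_, ⟨W, ⟨w2, w3⟩, rfl⟩, image_subset_iff.1 w1⟩
  refine (h ((fun W : Set ℝ => Subtype.val ⁻¹' W) '' {W | IsOpen W ∧ volume W < 2⁻¹})
    ⟨⟨?_, eq_univ_of_forall fun z => (h2 {z} (finite_singleton z)).imp
      fun _ h => ⟨h.1, h.2 rfl⟩, ?_⟩, h2⟩).elim fun 𝒱 ⟨v1, _, v2, v3⟩ => ?_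
  · rintro _ ⟨W, hW, rfl⟩
    exact hW.1.preimage continuous_subtype_val
  · rintro ⟨W, w1, w2⟩
    exact (w1.2.trans h0).not_ge (h1 W w2)
  · let u := v2.natEmbedding
    choose W w1 w2 using fun n => v1 (u n).2
    have h3 := h1 (⋃ m, ⋂ n ≥ m, W n) (eq_univ_of_forall fun z => by
      obtain ⟨m, hm⟩ := ((v3 z).preimage (f := fun n => (u n).1)
        (Subtype.val_injective.comp u.injective).injOn).bddAbove
      refine mem_iUnion.2 ⟨m + 1, mem_iInter₂.2 fun n hn => ?_⟩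
      by_contra h4
      exact (hm ⟨(u n).2, fun h5 => h4 ((w2 n).ge h5)⟩).not_gt hn)
    rw [Monotone.measure_iUnion fun a b hab => biInter_subset_biInter_left fun n hn =>
      hab.trans hn] at h3
    exact h0.not_ge (h3.trans (iSup_le fun m => (measure_mono (biInter_subset_of_mem
      (le_refl m))).trans (w1 m).2.le))

theorem result :
    (∀ p : Ultrafilter ℕ, Kat p → Cho (Om (Op (Icc (0 : ℝ) 1))) (Gp (Icc (0 : ℝ) 1) p)) ∧
    ¬ Cho (Om (Op (Icc (0 : ℝ) 1))) (Ga (Op (Icc (0 : ℝ) 1))) ∧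
    ((∀ p : Ultrafilter ℕ, (p : Filter ℕ) ≤ cofinite → Kat p) →
      ∃ X : Set ℝ, X.Infinite ∧ (∀ p : Ultrafilter ℕ, (p : Filter ℕ) ≤ cofinite →
        Cho (Om (Op X)) (Gp X p)) ∧ ¬ Cho (Om (Op X)) (Ga (Op X))) :=
  ⟨pos, neg, fun h => ⟨Icc 0 1, Icc_infinite zero_lt_one, fun p hp => pos p (h p hp), neg⟩⟩

end Pool.Agent.Results.MP_e258b5_gt.Kat
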